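import Pool.Agent.Lib.MP_dee884_lc.H5.Spec5
import Pool.Agent.Lib.MP_dee884_lc.Lin

/-!
# MP_dee884_lc, H5: inverse letter maps of the classes `AlmostOne` and `LINTIME`
-/

namespace MPdee884H5

open MPdee884H1 MPdee884H2 MPdee884H3 MPdee884H4 Pool.Agent.Lin

private theorem ini_map {X A K : Type} {Γ : K → Type} (φ : X → A) (I : Set K)
    (emb : (k : K) → A → Γ k) (w : List X) :
    ini I (fun k x => emb k (φ x)) w = ini I emb (w.map φ) := by
  funext k
  unfold ini
  rw [List.map_map]
  rfl

private theorem flatMap_one {X A : Type} (φ : X → A) (w : List X) :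
    w.flatMap (fun x => [φ x]) = w.map φ := by
  induction w with
  | nil => rfl
  | cons a w ih =>
    rw [List.flatMap_cons, ih, List.map_cons]
    rfl

theorem tAInv : S_AInv := by
  refine ⟨?_, ?_⟩
  · intro X A hX φ L
    rintro ⟨s, hs, hA, K, hK, Γ, hΓ, I, k1, emb, M, c, h1, h2, h3, h4⟩
    refine ⟨s, hs, hX, K, hK, Γ, hΓ, I, k1, fun k x => emb k (φ x), M, c, h1, h2, ?_, ?_⟩
    · intro x hx
      have h := h3 (x.map φ) hx
      rw [List.length_map] at h
      rw [ini_map]
      exact h
    · intro n x hx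
      rw [ini_map] at hx
      exact h4 n (x.map φ) hx
  · intro X A hX φ L hL
    have h := hL.inv (MP.hom (fun x : X => [φ x]))
    have e : {x : List X | (MP.hom (fun x : X => [φ x])).val x ∈ L} =
        {w : List X | w.map φ ∈ L} := by
      ext w
      simp only [Set.mem_ofPred_eq, MP.hom_val, flatMap_one]
    rwa [e] at h

end MPdee884H5
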