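import Pool.Agent.Lib.MP_dee884_lc.H5.Spec5

/-!
# MP_dee884_lc, H5: inverse letter maps of context-free languages
-/

namespace MPdee884H5

open MPdee884H1 MPdee884H2 MPdee884H3 MPdee884H4 Pool.Agent.Lin

private def cfiSy {X A N : Type} : Symbol A N → Symbol X (N ⊕ A)
  | .terminal a => .nonterminal (Sum.inr a)
  | .nonterminal n => .nonterminal (Sum.inl n)

private def cfiPi {X A N : Type} (φ : X → A) : Symbol X (N ⊕ A) → Symbol A N
  | .terminal x => .terminal (φ x)
  | .nonterminal (Sum.inl n) => .nonterminal n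
  | .nonterminal (Sum.inr a) => .terminal a

private theorem cfi_pi_sy {X A N : Type} (φ : X → A) (l : List (Symbol A N)) :
    (l.map (cfiSy (X := X))).map (cfiPi φ) = l := by
  rw [List.map_map]
  have h : (cfiPi φ ∘ cfiSy (X := X) : Symbol A N → Symbol A N) = id := by
    funext s
    cases s <;> rfl
  rw [h, List.map_id]

open Classical in
private noncomputable def cfiG {X A : Type} [Fintype X] (φ : X → A) (g : ContextFreeGrammar A) :
    ContextFreeGrammar X where
  NT := g.NT ⊕ A
  initial := Sum.inl g.initial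
  rules := (g.rules.image (fun r => ⟨Sum.inl r.input, r.output.map cfiSy⟩)) ∪
    (Finset.univ.image (fun x : X => ⟨Sum.inr (φ x), [Symbol.terminal x]⟩))

private theorem cfi_mem {X A : Type} [Fintype X] (φ : X → A) (g : ContextFreeGrammar A)
    (r : ContextFreeRule X (g.NT ⊕ A)) : r ∈ (cfiG φ g).rules ↔
      (∃ r' ∈ g.rules, (⟨Sum.inl r'.input, r'.output.map cfiSy⟩ : ContextFreeRule X (g.NT ⊕ A)) = r) ∨
      ∃ x : X, (⟨Sum.inr (φ x), [Symbol.terminal x]⟩ : ContextFreeRule X (g.NT ⊕ A)) = r := by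
  classical
  unfold cfiG
  simp only [Finset.mem_union, Finset.mem_image, Finset.mem_univ, true_and]

private theorem cfi_up {X A : Type} [Fintype X] (φ : X → A) (g : ContextFreeGrammar A)
    {u v : List (Symbol A g.NT)} (h : g.Derives u v) :
    (cfiG φ g).Derives (u.map cfiSy) (v.map cfiSy) := by
  induction h with
  | refl => exact Relation.ReflTransGen.refl
  | tail _ last ih =>
    refine ih.tail ?_
    obtain ⟨r, hr, hrw⟩ := last
    obtain ⟨p, q, h1, h2⟩ := hrw.exists_parts
    refine ⟨⟨Sum.inl r.input, r.output.map cfiSy⟩, (cfi_mem φ g _).2 (Or.inl ⟨r, hr, rfl⟩), ?_⟩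
    rw [ContextFreeRule.rewrites_iff]
    refine ⟨p.map cfiSy, q.map cfiSy, ?_, ?_⟩
    · rw [h1]
      simp only [List.map_append, List.map_cons, List.map_nil]
      rfl
    · rw [h2]
      simp only [List.map_append]

private theorem cfi_lett {X A : Type} [Fintype X] (φ : X → A) (g : ContextFreeGrammar A)
    (w : List X) : (cfiG φ g).Derives
      (w.map (fun x => (Symbol.nonterminal (Sum.inr (φ x)) : Symbol X (g.NT ⊕ A))))
      (w.map Symbol.terminal) := by
  induction w with
  | nil => exact Relation.ReflTransGen.refl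
  | cons x w ih =>
    have h1 := ih.append_left [(Symbol.nonterminal (Sum.inr (φ x)) : Symbol X (g.NT ⊕ A))]
    refine Relation.ReflTransGen.tail h1 ?_
    refine ⟨⟨Sum.inr (φ x), [Symbol.terminal x]⟩, (cfi_mem φ g _).2 (Or.inr ⟨x, rfl⟩), ?_⟩
    rw [ContextFreeRule.rewrites_iff]
    exact ⟨[], w.map Symbol.terminal, rfl, rfl⟩

private theorem cfi_a {X A N : Type} (φ : X → A) (p q : List (Symbol X (N ⊕ A))) (n : N) :
    (p ++ [Symbol.nonterminal (Sum.inl n)] ++ q).map (cfiPi φ) =
      p.map (cfiPi φ) ++ [Symbol.nonterminal n] ++ q.map (cfiPi φ) := by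
  simp only [List.map_append, List.map_cons, List.map_nil]
  rfl

private theorem cfi_b {X A N : Type} (φ : X → A) (p q : List (Symbol X (N ⊕ A)))
    (l : List (Symbol A N)) : (p ++ l.map cfiSy ++ q).map (cfiPi φ) =
      p.map (cfiPi φ) ++ l ++ q.map (cfiPi φ) := by
  simp only [List.map_append]
  rw [cfi_pi_sy]

private theorem cfi_c {X A N : Type} (φ : X → A) (p q : List (Symbol X (N ⊕ A))) (x : X) :
    (p ++ [Symbol.nonterminal (Sum.inr (φ x))] ++ q).map (cfiPi φ) =
      (p ++ [Symbol.terminal x] ++ q).map (cfiPi φ) := by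
  simp only [List.map_append, List.map_cons, List.map_nil]
  rfl

private theorem cfi_step {X A : Type} [Fintype X] (φ : X → A) (g : ContextFreeGrammar A)
    {b c : List (Symbol X (g.NT ⊕ A))} (last : (cfiG φ g).Produces b c) :
    g.Produces (b.map (cfiPi φ)) (c.map (cfiPi φ)) ∨ b.map (cfiPi φ) = c.map (cfiPi φ) := by
  obtain ⟨r, hr, hrw⟩ := last
  rcases (cfi_mem φ g r).1 hr with ⟨r', hr', rfl⟩ | ⟨x, rfl⟩
  · have hh : ∃ p q : List (Symbol X (g.NT ⊕ A)),
        b = p ++ [Symbol.nonterminal (Sum.inl r'.input)] ++ q ∧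
        c = p ++ r'.output.map cfiSy ++ q := hrw.exists_parts
    obtain ⟨p, q, h1, h2⟩ := hh
    left
    refine ⟨r', hr', ?_⟩
    rw [ContextFreeRule.rewrites_iff]
    refine ⟨p.map (cfiPi φ), q.map (cfiPi φ), ?_, ?_⟩
    · rw [h1, cfi_a]
    · rw [h2, cfi_b]
  · have hh : ∃ p q : List (Symbol X (g.NT ⊕ A)),
        b = p ++ [Symbol.nonterminal (Sum.inr (φ x))] ++ q ∧
        c = p ++ [Symbol.terminal x] ++ q := hrw.exists_parts
    obtain ⟨p, q, h1, h2⟩ := hh
    right
    rw [h1, h2, cfi_c]

private theorem cfi_down {X A : Type} [Fintype X] (φ : X → A) (g : ContextFreeGrammar A)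
    {u v : List (Symbol X (g.NT ⊕ A))} (h : (cfiG φ g).Derives u v) :
    g.Derives (u.map (cfiPi φ)) (v.map (cfiPi φ)) := by
  induction h with
  | refl => exact Relation.ReflTransGen.refl
  | @tail b c _ last ih =>
    rcases cfi_step φ g last with h1 | h1
    · exact ih.tail h1
    · exact (congrArg (fun z : List (Symbol A g.NT) => g.Derives (u.map (cfiPi φ)) z) h1).mp ih

theorem tCfInv : S_CfInv := by
  intro X A _ φ L hL
  obtain ⟨g, rfl⟩ := hL
  have : Fintype X := Fintype.ofFinite X
  refine ⟨cfiG φ g, ?_⟩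
  apply Set.ext
  intro w
  have e1 : (w.map φ).map (Symbol.terminal (N := g.NT)) =
      (w.map Symbol.terminal).map (cfiPi (N := g.NT) φ) := by
    rw [List.map_map, List.map_map]
    rfl
  have e2 : ((w.map φ).map (Symbol.terminal (N := g.NT))).map (cfiSy (X := X)) =
      w.map (fun x => (Symbol.nonterminal (Sum.inr (φ x)) : Symbol X (g.NT ⊕ A))) := by
    rw [List.map_map, List.map_map]
    rfl
  constructor
  · intro h
    have h1 : g.Derives [Symbol.nonterminal g.initial]
        ((w.map Symbol.terminal).map (cfiPi (N := g.NT) φ)) := cfi_down φ g h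
    rw [← e1] at h1
    exact h1
  · intro h
    have h1 : g.Derives [Symbol.nonterminal g.initial] ((w.map φ).map Symbol.terminal) := h
    have h2 : (cfiG φ g).Derives [Symbol.nonterminal (Sum.inl g.initial)]
        (((w.map φ).map (Symbol.terminal (N := g.NT))).map (cfiSy (X := X))) := cfi_up φ g h1
    have h3 : (cfiG φ g).Derives
        (((w.map φ).map (Symbol.terminal (N := g.NT))).map (cfiSy (X := X)))
        (w.map Symbol.terminal) :=
      (congrArg (fun z : List (Symbol X (g.NT ⊕ A)) =>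
        (cfiG φ g).Derives z (w.map Symbol.terminal)) e2).mpr (cfi_lett φ g w)
    exact h2.trans h3

end MPdee884H5
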