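import Pool.Agent.Lib.MP_dee884_lc.H5.Spec5
import Pool.Agent.Lib.MP_dee884_lc.H4.RgI

/-!
# MP_dee884_lc, H5: the initial symbols for the word `F(x)` are recognised
-/

namespace MPdee884H5

open MPdee884H1 MPdee884H2 MPdee884H3 MPdee884H4 Pool.Agent.Lin

private theorem trackN {X : Type} {m : ℕ} (hm : 2 ≤ m) (w : List X) (u : List ℕ)
    (h : u.length = w.length) (hu : ∀ n ∈ u, n < m) : ∃ v : List (X × Fin m),
      v.map Prod.fst = w ∧ v.map (fun p => (p.2 : ℕ)) = u := by
  refine ⟨w.zip (u.map (fun n => (⟨n % m, Nat.mod_lt _ (by omega)⟩ : Fin m))), ?_, ?_⟩
  · rw [List.map_fst_zip]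
    simp [h]
  · have e : (fun p : X × Fin m => (p.2 : ℕ)) = (fun t : Fin m => (t : ℕ)) ∘ Prod.snd := rfl
    rw [e, ← List.map_map, List.map_snd_zip (by simp [h]), List.map_map]
    conv_rhs => rw [← List.map_id u]
    refine List.map_congr_left ?_
    intro n hn
    exact Nat.mod_eq_of_lt (hu n hn)

private theorem ind_length {A : Type} (a : A) (x : List A) : (ind a x).length = x.length := by
  unfold ind
  rw [List.length_map]

private theorem ind_lt {A : Type} {m : ℕ} (hm : 2 ≤ m) (a : A) (x : List A) :
    ∀ n ∈ ind a x, n < m := by
  intro n hn
  unfold ind at hn
  obtain ⟨b, _, rfl⟩ := List.mem_map.mp hn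
  split_ifs <;> omega

private theorem ind_get {A : Type} (a : A) (x : List A) (n : ℕ) :
    (ind a x)[n]? = some 1 ↔ x[n]? = some a := by
  unfold ind
  rw [List.getElem?_map]
  cases h : x[n]? with
  | none => simp
  | some b =>
    by_cases hb : b = a
    · simp [hb]
    · simp [hb]

theorem tRgF : S_XS1 → S_XS2 → S_EqS → S_Code → S_RegS → S_RegL → S_RgF := by
  intro hX1 hX2 hEq hC hReg hR ρ B E m t X A A' K Γ _ _ _ M I l KK mk dec enc emb F fx f k β s hm
    hl henc hdec hs hs2 _ ht hF hG
  have := M.fin
  have := RgI_dir
  by_cases hk : k ∈ I
  · have hini : ∀ x : List A', ini I emb x k = tapeOf (x.map (emb k)) := by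
      intro x
      unfold ini
      rw [if_pos hk]
    rcases lt_or_ge β 0 with hβ | hβ
    · refine (RgI_blank (dec := dec) hReg hl f k s hs2).congr ?_
      intro w b hw
      have e : (List.range b).map (fun o : ℕ => ini I emb (F (w.map fx)) k (β * b + o)) =
          (List.range b).map (fun _ => none) := by
        rw [range_map_eq]
        intro i hi
        rw [hini]
        unfold tapeOf
        have h1 : β * (b : ℤ) ≤ (-1) * (b : ℤ) :=
          mul_le_mul_of_nonneg_right (by omega) (Int.natCast_nonneg b)
        rw [if_neg (by omega)]
      rw [e]
    · obtain ⟨β', rfl⟩ := Int.eq_ofNat_of_zero_le hβ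
      have key : ∀ (w : List X) (b i : ℕ), ini I emb (F (w.map fx)) k ((β' : ℤ) * b + i) =
          ((F (w.map fx)).map (emb k))[β' * b + i]? := by
        intro w b i
        rw [hini]
        unfold tapeOf
        have e1 : ((β' : ℤ) * b + i) = ((β' * b + i : ℕ) : ℤ) := by push_cast; rfl
        rw [e1, if_pos (Int.natCast_nonneg _), Int.toNat_natCast]
      rcases Nat.lt_or_ge KK β' with h1 | h1
      · refine (RgI_blank (dec := dec) hReg hl f k s hs2).congr ?_
        intro w b hw
        have e : (List.range b).map (fun o : ℕ =>
            ini I emb (F (w.map fx)) k ((β' : ℤ) * b + o)) =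
            (List.range b).map (fun _ => none) := by
          rw [range_map_eq]
          intro i hi
          rw [key]
          refine List.getElem?_eq_none ?_
          have h2 := hw.2.2.1
          rw [List.length_map] at h2
          rw [List.length_map, hF, List.length_map]
          have h3 := mul_step KK β' b h1
          omega
        rw [e]
      · -- the main case
        have cOut : RgC E m (t + 1) KK mk (fun w b => ∀ i < b,
            ((w.map (fun _ => ()))[β' * b + i]? = none →
              (asCN k (lt l dec (w.map f) (s * b + i))).1 = none)) :=
          (rgX (dec := dec) hX1 hX2 hEq hC hm hl enc henc hdec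
            (fun _ : X => ()) f (fun o a => o = none → (asCN k a).1 = none) β' s hs hs2 h1).le
            (by omega)
        have cA : ∀ a : A', RgC E m (t + 1) KK mk (fun w b => ∃ v : List (X × Fin m),
            v.map Prod.fst = w ∧
              (v.map (fun p => (p.2 : ℕ)) = ind a (F (v.map (fun p => fx p.1))) ∧
                ∀ i < b, (((v.map (fun p => p.2))[β' * b + i]?).map (fun t : Fin m => (t : ℕ)) = some 1 →
                  (asCN k (lt l dec (v.map (fun p => f p.1)) (s * b + i))).1 =
                    some (emb k a)))) := by
          intro a
          refine RgC.ex ?_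
          have c1 : RgC E m t KK (fun p : X × Fin m => mk p.1)
              (fun v _ => v.map (fun p => (p.2 : ℕ)) = ind a (F (v.map (fun p => fx p.1)))) :=
            ⟨_, hG a, fun _ _ _ => Iff.rfl⟩
          have c2 : RgC E m t KK (fun p : X × Fin m => mk p.1)
              (fun v b => ∀ i < b,
                (((v.map (fun p => p.2))[β' * b + i]?).map (fun t : Fin m => (t : ℕ)) = some 1 →
                  (asCN k (lt l dec (v.map (fun p => f p.1)) (s * b + i))).1 =
                    some (emb k a))) :=
            (rgX (dec := dec) hX1 hX2 hEq hC hm hl enc henc hdec
              (fun p : X × Fin m => p.2) (fun p : X × Fin m => f p.1)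
              (fun o a' => o.map (fun t : Fin m => (t : ℕ)) = some 1 → (asCN k a').1 = some (emb k a))
              β' s hs hs2 h1).le ht
          exact c1.and c2
        refine (cOut.and (RgC.all hR cA)).congr ?_
        intro w b _
        unfold slot
        rw [List.map_map, List.map_map, range_map_eq]
        have hlen : (F (w.map fx)).length = w.length := by
          rw [hF, List.length_map]
        constructor
        · intro h
          have h' : ∀ i < b, (asCN k (lt l dec (w.map f) (s * b + i))).1 =
              ((F (w.map fx)).map (emb k))[β' * b + i]? := by
            intro i hi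
            rw [← key]
            exact h i hi
          refine ⟨?_, ?_⟩
          · intro i hi hn
            rw [h' i hi]
            rw [List.getElem?_eq_none_iff, List.length_map] at hn
            refine List.getElem?_eq_none ?_
            rw [List.length_map, hlen]
            exact hn
          · intro a
            obtain ⟨v, hv1, hv2⟩ := trackN hm w (ind a (F (w.map fx)))
              ((ind_length a _).trans hlen) (ind_lt hm a _)
            have e1 : v.map (fun p => fx p.1) = w.map fx := by
              rw [← hv1, List.map_map]
              rfl
            have e2 : v.map (fun p => f p.1) = w.map f := by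
              rw [← hv1, List.map_map]
              rfl
            refine ⟨v, hv1, ?_, ?_⟩
            · rw [e1]
              exact hv2
            · intro i hi ho
              rw [e2, h' i hi]
              have e3 : ((v.map (fun p => p.2))[β' * b + i]?).map (fun t : Fin m => (t : ℕ)) =
                  (ind a (F (w.map fx)))[β' * b + i]? := by
                rw [← hv2, List.getElem?_map, List.getElem?_map, Option.map_map]
                rfl
              rw [e3, ind_get] at ho
              rw [List.getElem?_map, ho]
              rfl
        · rintro ⟨h2, h3⟩ i hi
          show (asCN k (lt l dec (w.map f) (s * b + i))).1 = _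
          rw [key]
          rcases Nat.lt_or_ge (β' * b + i) w.length with h4 | h4
          · have h5 : β' * b + i < (F (w.map fx)).length := by omega
            obtain ⟨v, hv1, hv2, hv3⟩ := h3 ((F (w.map fx))[β' * b + i])
            have e1 : v.map (fun p => fx p.1) = w.map fx := by
              rw [← hv1, List.map_map]
              rfl
            have e2 : v.map (fun p => f p.1) = w.map f := by
              rw [← hv1, List.map_map]
              rfl
            have e3 : ((v.map (fun p => p.2))[β' * b + i]?).map (fun t : Fin m => (t : ℕ)) = some 1 := by
              have e4 : ((v.map (fun p => p.2))[β' * b + i]?).map (fun t : Fin m => (t : ℕ)) =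
                  (ind ((F (w.map fx))[β' * b + i]) (F (w.map fx)))[β' * b + i]? := by
                rw [e1] at hv2
                rw [← hv2, List.getElem?_map, List.getElem?_map, Option.map_map]
                rfl
              rw [e4, ind_get]
              exact List.getElem?_eq_getElem h5
            have h6 := hv3 i hi e3
            rw [e2] at h6
            rw [h6, List.getElem?_map, List.getElem?_eq_getElem h5]
            rfl
          · rw [h2 i hi (List.getElem?_eq_none (by rw [List.length_map]; exact h4))]
            exact (List.getElem?_eq_none (by rw [List.length_map, hlen]; exact h4)).symm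
  · refine (RgI_blank (dec := dec) hReg hl f k s hs2).congr ?_
    intro w b _
    have e : (List.range b).map (fun o : ℕ => ini I emb (F (w.map fx)) k (β * b + o)) =
        (List.range b).map (fun _ => none) := by
      rw [range_map_eq]
      intro i _
      unfold ini
      rw [if_neg hk]
    rw [e]

end MPdee884H5
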