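import Pool.Agent.Lib.MP_dee884_lc.H5.StmG
import Pool.Agent.Lib.MP_dee884_lc.H4.Spec
import Pool.Agent.Lib.MP_dee884_lc.H3.Rec

/-!
# MP_dee884_lc, H5: the statements of the modules

Each module `X.lean` in this folder proves `theorem tX : S_X` (or with other `S_Y` as hypotheses).
-/

namespace MPdee884H5

open MPdee884H1 MPdee884H2 MPdee884H3 MPdee884H4 Pool.Agent.Lin

/-- INVERSE LETTER MAPS of context-free languages. Proof: `g` a grammar of `L`; the grammar with the
nonterminals `g.NT ⊕ A`, the rules of `g` in which every terminal `a` is replaced by the nonterminal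
`Sum.inr a`, and the rules `Sum.inr (φ x) → x` for the letters `x` of the finite alphabet `X`.
(1) A derivation of `g` of `w.map φ` gives a derivation of the word of nonterminals `Sum.inr (φ x)`,
then of `w`. (2) Map the symbols of the new grammar to the ones of `g` (`x` to `φ x`, `Sum.inl n` to
`n`, `Sum.inr a` to the terminal `a`): every step of the new grammar becomes a step of `g` or no
change. -/
def S_CfInv : Prop := ∀ {X A : Type} [Finite X] (φ : X → A) (L : Language A),
  L.IsContextFree → Language.IsContextFree ({w | w.map φ ∈ L} : Language X)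

/-- INVERSE LETTER MAPS of the classes `AlmostOne` (the letter maps `emb k` are replaced by
`fun x => emb k (φ x)`, `ini` is the same by `List.map_map`; the rest of the machine is the same) and
`LINTIME` (`LINTIME.inv` in Lin.lean with `MP.hom (fun x => [φ x])`, `MP.hom_val`,
`flatMap_single`). -/
def S_AInv : Prop := (∀ {X A : Type} [Finite X] (φ : X → A) (L : Set (List A)),
  AlmostOne L → AlmostOne {w | w.map φ ∈ L}) ∧
  ∀ {X A : Type} [Finite X] (φ : X → A) (L : Set (List A)), LINTIME L → LINTIME {w | w.map φ ∈ L}

/-- INITIAL SYMBOLS for the word `F(x)` (compare `tRgI` in H4/RgI.lean: the same proof for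
`k ∉ I`, `β < 0`, `β > KK` with `RgI_blank`; `(F x).length = x.length`). Main case `k ∈ I`,
`0 ≤ β ≤ KK`, `β = β'`. The condition is equivalent to: (out) for all `i < b`, if `β' b + i ≥ n` then
the slot letter `i` has the symbol `none` (`rgX` with `fx` and
`r o λ := o = none → (asCN k λ).1 = none`, level 1), and for each letter `a : A'` (`RgC.all`,
`A'` is finite) there is `v` over `X × Fin m` above `w` (`RgC.ex`) with: `v` is in the language of
`hG a` (second track = the marks of the letters `a` in `F(w.map fx)`), and for all `i < b`: if the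
letter of the second track number `β' b + i` exists and is `1` then the slot letter `i` has the
symbol `some (emb k a)` (`rgX` for the alphabet `X × Fin m`, `mk := fun p => mk p.1`,
`fx := fun p => p.2`, `f := fun p => f p.1`, `r o λ := o.map (fun t => (t : ℕ)) = some 1 →
(asCN k λ).1 = some (emb k a)`). From left to right: `v` = `w` with the marks (`2 ≤ m`). From right to
left: the letter number `β' b + i` of `F(..)` is some `a` if `β' b + i < n`. -/
def S_RgF : Prop := ∀ {ρ : Type} {B : ρ → Type} (E : (i : ρ) → Set (List (B i × Bool)))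
  (m t : ℕ) {X A A' K : Type} {Γ : K → Type} [Finite A'] [Finite K] [∀ k, Finite (Γ k)]
  (M : NM K Γ) (I : Set K) (l KK : ℕ) (mk : X → Bool) (dec : List Bool → LN M)
  (enc : LN M → List Bool) (emb : (k : K) → A' → Γ k) (F : List A → List A') (fx : X → A)
  (f : X → Bool) (k : K) (β : ℤ) (s : ℕ),
  2 ≤ m → 1 ≤ l → (∀ a, (enc a).length = l) → (∀ a, dec (enc a) = a) → 1 ≤ s →
  (s + 1) * l ≤ KK → Finite X → 1 ≤ t → (∀ x, (F x).length = x.length) →
  (∀ a : A', Cls E m t (X × Fin m)
    {v | v.map (fun p => (p.2 : ℕ)) = ind a (F (v.map (fun p => fx p.1)))}) →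
  RgC E m (t + 1) KK mk (fun w b => ((slot l dec (w.map f) b s).map (asCN k)).map Prod.fst =
    (List.range b).map (fun o : ℕ => ini I emb (F (w.map fx)) k (β * b + o)))

end MPdee884H5
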