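import Pool.Agent.Lib.MP_dee884_lc.H5.StmG
import Pool.Agent.Lib.MP_dee884_lc.H3.Rec

/-!
# MP_dee884_lc, H5: the statement of the module `RgL` (deterministic machines)
-/

namespace MPdee884H5

open MPdee884H1 MPdee884H2 MPdee884H3 Pool.Agent.Lin

/-- INITIAL SYMBOLS for the word `F(x)`, deterministic machines: the same as `S_RgF` (Spec5.lean) with
`asCell` for `asCN` and `inp k0 ((F (w.map fx)).map emb)` for `ini I emb (F (w.map fx))` (compare
`rgInit` in H3/Rec.lean: `k ≠ k0` blank, `k = k0` the word). Same proof: the condition is equivalent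
to: (out) for all `i < b`, if `β' b + i ≥ n` then the slot letter `i` has the symbol `none` (`rgX`,
level 1), and for each letter `a : A'` there is `v` over `X × Fin m` above `w` (`RgC.ex`) in the
language of the letter `a` (second track = the marks of the letters `a` in `F(w.map fx)`), such that for
all `i < b`: if the letter of the second track number `β' b + i` exists and is `1` then the slot letter
`i` has the symbol `some (emb a)` (`rgX` for the alphabet `X × Fin m`, `mk := fun p => mk p.1`,
`fx := fun p => p.2`, `f := fun p => f p.1`). -/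
def S_RgL : Prop := ∀ {ρ : Type} {B : ρ → Type} (E : (i : ρ) → Set (List (B i × Bool)))
  (m t : ℕ) {X A A' K : Type} {Γ : K → Type} [Finite A'] [Finite K] [∀ k, Finite (Γ k)]
  (M : TM K Γ) (l KK : ℕ) (mk : X → Bool) (dec : List Bool → Ltr M)
  (enc : Ltr M → List Bool) (k0 : K) (emb : A' → Γ k0) (F : List A → List A') (fx : X → A)
  (f : X → Bool) (k : K) (β : ℤ) (s : ℕ),
  2 ≤ m → 1 ≤ l → (∀ a, (enc a).length = l) → (∀ a, dec (enc a) = a) → 1 ≤ s →
  (s + 1) * l ≤ KK → Finite X → 1 ≤ t → (∀ x, (F x).length = x.length) →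
  (∀ a : A', Cls E m t (X × Fin m)
    {v | v.map (fun p => (p.2 : ℕ)) = ind a (F (v.map (fun p => fx p.1)))}) →
  RgC E m (t + 1) KK mk (fun w b => ((slot l dec (w.map f) b s).map (asCell k)).map Prod.fst =
    (List.range b).map (fun o : ℕ => inp k0 ((F (w.map fx)).map emb) k (β * b + o)))

end MPdee884H5
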