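import Pool.Agent.Lib.MP_dee884_lc.H4.StmF

/-!
# MP_dee884_lc, H5: definitions of the statement

The classes `D_j` with composition.
-/

namespace MPdee884H5

open MPdee884H1 MPdee884H2 MPdee884H4 Pool.Agent.Lin

open Classical in
/-- the word over `{0, 1}` which marks the letters `a` of the word `x` -/
noncomputable def ind {A : Type} (a : A) (x : List A) : List ℕ :=
  x.map (fun b => if b = a then 1 else 0)

/-- The words `(x, y)` over `A × [k]` such that `y` is the word over `{0, 1}` which marks the letters
`a` of `f(x)`. -/
def Gr (k : ℕ) {A A' : Type} (f : List A → List A') (a : A') : Set (List (A × Fin k)) :=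
  {v | v.map (fun p => (p.2 : ℕ)) = ind a (f (v.map Prod.fst))}

/-- The class `D_j(A)`: Boolean closure of the context-free languages, of the languages of the class
`AlmostOne`, of the languages in `LINTIME`, of the slices of the languages `E i`, of the languages
`{x : f(x) is in L}`, `L` in `AlmostOne`, `f` a function which preserves the length such that for
each letter `a` the words `(x, y)`, `y` marks the letters `a` of `f(x)`, are a language in `LINTIME`
or (`j > 0`) in `D_(j-1)(A × [k])`, and (`j > 0`) of the languages
`{x : some word over A × [k] above x is in M}`, `M` in `D_(j-1)(A × [k])`. -/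
inductive ClsC {ρ : Type} {B : ρ → Type} (E : (i : ρ) → Set (List (B i × Bool))) (k : ℕ) :
    ℕ → (A : Type) → Set (List A) → Prop
  | cf {j : ℕ} {A : Type} (L : Language A) : L.IsContextFree → ClsC E k j A {x | x ∈ L}
  | tape {j : ℕ} {A : Type} (L : Set (List A)) : AlmostOne L → ClsC E k j A L
  | lin {j : ℕ} {A : Type} (L : Set (List A)) : LINTIME L → ClsC E k j A L
  | slice {j : ℕ} {A : Type} (i : ρ) (f : A → B i) (u : List Bool) :
      ClsC E k j A {x | (x.map f).zip (pad u x.length) ∈ E i}
  | compl {j : ℕ} {A : Type} (L : Set (List A)) : ClsC E k j A L → ClsC E k j A Lᶜ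
  | union {j : ℕ} {A : Type} (L M : Set (List A)) : ClsC E k j A L → ClsC E k j A M →
      ClsC E k j A (L ∪ M)
  | redl {j : ℕ} {A A' : Type} (f : List A → List A') (L : Set (List A')) : Finite A →
      (∀ x, (f x).length = x.length) → (∀ a, LINTIME (Gr k f a)) → AlmostOne L →
      ClsC E k j A {x | f x ∈ L}
  | red {j : ℕ} {A A' : Type} (f : List A → List A') (L : Set (List A')) : Finite A →
      (∀ x, (f x).length = x.length) → (∀ a, ClsC E k j (A × Fin k) (Gr k f a)) → AlmostOne L →
      ClsC E k (j + 1) A {x | f x ∈ L}
  | ex {j : ℕ} {A : Type} (M : Set (List (A × Fin k))) : ClsC E k j (A × Fin k) M →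
      ClsC E k (j + 1) A {x | ∃ v : List (A × Fin k), v.map Prod.fst = x ∧ v ∈ M}

end MPdee884H5
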